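import Pool.Agent.MP_82452b_an.H8.RT

/-!
# A mass estimate in `ℓ²(G)`
-/

namespace Pool.Agent.MP_82452b_an.H8

open Filter Topology Pool.Agent.MP_755d6b_an.H98
open scoped InnerProductSpace

variable {G : Type} [Group G] {S : L2 G →L[ℂ] L2 G}

theorem RT.coeff_conj (h : RT S) (t l k : G) :
    ⟪lam l (S (dl (t⁻¹ * k * t))), (S * lam k * S) (S (dl t))⟫_ℂ = S (dl t) l := by
  set k' := t⁻¹ * k * t with hk'
  have hu : ∀ g, S * lam g * S ∈ LG G := fun g => h.mem _ (lam_mem g)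
  have hstar : ∀ g, star (S * lam g * S) = S * lam g⁻¹ * S := fun g => by
    rw [star_mul, star_mul, h.sa, star_lam, mul_assoc]
  have h1 : (S * lam k * S) (S (dl t)) = (S * lam t * S) ((S * lam k' * S) (dl 1)) := by
    rw [← h.u_dl t, ← mul_apply_eq_comp (S * lam k * S), ← h.u_mul,
      ← mul_apply_eq_comp (S * lam t * S), ← h.u_mul, hk']
    congr 4
    group
  have h2 := isTV_LG.tr (S * lam k'⁻¹ * S) (hu _)
    (lam l⁻¹ * (S * lam t * S) * (S * lam k' * S)) (mul_mem (mul_mem (lam_mem _) (hu _)) (hu _))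
  have h3 : (S * lam k' * S) ((S * lam k'⁻¹ * S) (dl 1)) = dl 1 := by
    rw [← mul_apply_eq_comp (S * lam k' * S), ← h.u_mul, mul_inv_cancel, h.u_dl, h.fix]
  rw [← hstar, inner_apply_star, hstar, mul_apply_eq_comp (lam l⁻¹ * _) _ (dl 1),
    mul_apply_eq_comp (lam l⁻¹ * _) _ ((S * lam k'⁻¹ * S) (dl 1)), h3,
    mul_apply_eq_comp (lam l⁻¹), mul_apply_eq_comp (lam l⁻¹), ← star_lam, inner_apply_star,
    inner_apply_star, lam_dl, mul_one, inner_dl, h.u_dl t] at h2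
  rw [h1, ← h2, h.u_dl k']

omit [Group G] in
theorem inner_eq_inner_ind {φ ψ : L2 G} {D : Set G} (h : ∀ x, φ x ≠ 0 → ψ x ≠ 0 → x ∈ D) :
    ⟪φ, ψ⟫_ℂ = ⟪φ, ind D ψ⟫_ℂ := by
  refine (hasSum_inner' _ _).unique ?_
  convert hasSum_inner' φ (ind D ψ) using 2 with x
  rw [ind_apply]
  split_ifs with hx
  · rfl
  · by_cases h1 : φ x = 0
    · simp [h1]
    · by_cases h2 : ψ x = 0
      · simp [h2]
      · exact absurd (h x h1 h2) hx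

/-- MODULE A. -/
theorem RT.lemmaA (h : RT S) {Γ : Subgroup G} (hΓ : Inv S Γ) {t l : G} (ht : S (dl t) l ≠ 0) :
    ∃ (E : Finset G) (δ : ℝ), 0 < δ ∧ (∀ y ∈ E, y ∈ Γ) ∧ ∀ k ∈ Γ, t⁻¹ * k * t ∈ Γ →
      δ ≤ ‖ind {x | ∃ y ∈ E, x * y⁻¹ ∈ Γ ∧ l⁻¹ * (x * y⁻¹) * l ∈ Γ} (S (dl k))‖ := by
  classical
  have hc : 0 < ‖S (dl t) l‖ := norm_pos_iff.2 ht
  obtain ⟨F, hF⟩ : ∃ F : Finset G,
      ‖S (dl t) - ∑ a ∈ F, S (dl t) a • dl a‖ < ‖S (dl t) l‖ / 2 := by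
    have h1 : Tendsto (fun F : Finset G => ∑ a ∈ F, S (dl t) a • dl a) atTop (𝓝 (S (dl t))) :=
      hasSum_dl (S (dl t))
    obtain ⟨F, hF⟩ := (h1.eventually (Metric.ball_mem_nhds _ (half_pos hc))).exists
    exact ⟨F, by rwa [dist_comm, dist_eq_norm] at hF⟩
  have hy : ∀ a : G, ∃ y ∈ Γ, ∀ x ∈ Γ, l⁻¹ * x * a ∈ Γ → l⁻¹ * y * a ∈ Γ := by
    intro a
    by_cases hB : ∃ y ∈ Γ, l⁻¹ * y * a ∈ Γ
    · obtain ⟨y, hy, hy'⟩ := hB
      exact ⟨y, hy, fun _ _ _ => hy'⟩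
    · exact ⟨1, one_mem _, fun x hx hx' => absurd ⟨x, hx, hx'⟩ hB⟩
  choose y hy hy' using hy
  have hC : 0 ≤ ∑ a ∈ F, ‖S (dl t) a‖ := Finset.sum_nonneg fun _ _ => norm_nonneg _
  refine ⟨F.image y, ‖S (dl t) l‖ / (2 * (1 + ∑ a ∈ F, ‖S (dl t) a‖)), by positivity, ?_, ?_⟩
  · intro z hz
    obtain ⟨a, -, rfl⟩ := Finset.mem_image.1 hz
    exact hy a
  intro k hk hk'
  set D := {x | ∃ z ∈ F.image y, x * z⁻¹ ∈ Γ ∧ l⁻¹ * (x * z⁻¹) * l ∈ Γ} with hD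
  set φ := lam l (S (dl (t⁻¹ * k * t))) with hφ
  have hφ1 : ‖φ‖ = 1 := by rw [hφ, norm_lam, h.norm_apply, norm_dl]
  have hu : ∀ ξ, ‖(S * lam k * S) ξ‖ = ‖ξ‖ := fun ξ => by
    rw [mul_apply_eq_comp, mul_apply_eq_comp, h.norm_apply, norm_lam, h.norm_apply]
  have ha : ∀ a ∈ F, ‖⟪φ, (S * lam k * S) (dl a)⟫_ℂ‖ ≤ ‖ind D (S (dl k))‖ := by
    intro a haF
    have e1 : (S * lam k * S) (dl a) = star (rho a) (S (dl k)) := by
      rw [star_rho, ← h.u_dl k, ← mul_apply_eq_comp (rho a⁻¹),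
        mem_LG.1 (h.mem _ (lam_mem k)) a⁻¹, mul_apply_eq_comp _ (rho a⁻¹), rho_dl, one_mul,
        inv_inv]
    rw [e1, inner_apply_star, inner_eq_inner_ind (D := D)]
    · refine (norm_inner_le_norm _ _).trans ?_
      rw [norm_rho, hφ1, one_mul]
    · intro x h1 h2
      have hx : x ∈ Γ := hΓ k hk x h2
      have hx' : l⁻¹ * x * a ∈ Γ := by
        rw [mul_assoc]
        exact hΓ _ hk' _ h1
      refine ⟨y a, Finset.mem_image_of_mem _ haF, mul_mem hx (inv_mem (hy a)), ?_⟩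
      have := mul_mem hx' (inv_mem (hy' a x hx hx'))
      convert this using 1
      group
  have h1 : ‖⟪φ, (S * lam k * S) (∑ a ∈ F, S (dl t) a • dl a)⟫_ℂ‖ ≤
      (∑ a ∈ F, ‖S (dl t) a‖) * ‖ind D (S (dl k))‖ := by
    rw [map_sum, inner_sum, Finset.sum_mul]
    refine (norm_sum_le _ _).trans (Finset.sum_le_sum fun a haF => ?_)
    rw [map_smul, inner_smul_right, norm_mul]
    exact mul_le_mul_of_nonneg_left (ha a haF) (norm_nonneg _)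
  have h2 : ‖⟪φ, (S * lam k * S) (S (dl t) - ∑ a ∈ F, S (dl t) a • dl a)⟫_ℂ‖ ≤
      ‖S (dl t) l‖ / 2 := by
    refine (norm_inner_le_norm _ _).trans ?_
    rw [hφ1, one_mul, hu]
    exact hF.le
  have h3 : S (dl t) l = ⟪φ, (S * lam k * S) (∑ a ∈ F, S (dl t) a • dl a)⟫_ℂ +
      ⟪φ, (S * lam k * S) (S (dl t) - ∑ a ∈ F, S (dl t) a • dl a)⟫_ℂ := by
    rw [← inner_add_right, ← map_add, add_sub_cancel, hφ, h.coeff_conj]
  have h4 := norm_add_le ⟪φ, (S * lam k * S) (∑ a ∈ F, S (dl t) a • dl a)⟫_ℂ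
    ⟪φ, (S * lam k * S) (S (dl t) - ∑ a ∈ F, S (dl t) a • dl a)⟫_ℂ
  rw [← h3] at h4
  rw [div_le_iff₀ (by positivity)]
  nlinarith [norm_nonneg (ind D (S (dl k)))]

end Pool.Agent.MP_82452b_an.H8
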