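import Pool.Agent.MP_82452b_an.H8.RT

/-!
# A non weakly mixing family of unitary representations has a compact vector
-/

namespace Pool.Agent.MP_82452b_an.H8

open Filter Topology Pool.Agent.MP_755d6b_an.H98
open scoped InnerProductSpace TensorProduct

section C

variable {X Γ : Type}

theorem inner_conjL (a b : L2 X) : ⟪conjL a, conjL b⟫_ℂ = ⟪b, a⟫_ℂ := by
  refine (hasSum_inner' _ _).unique ?_
  convert hasSum_inner' b a using 2 with x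
  simp [conjL_apply, mul_comm]

theorem norm_conjL (a : L2 X) : ‖conjL a‖ = ‖a‖ := by
  rw [norm_eq_sqrt_re_inner (𝕜 := ℂ), inner_conjL, ← norm_eq_sqrt_re_inner]

/-- The rank one tensor of a vector. -/
noncomputable def tens (a b : L2 X) : L2 X ⊗[ℂ] L2 X := a ⊗ₜ[ℂ] conjL b

theorem inner_tens (a b c d : L2 X) : ⟪tens a b, tens c d⟫_ℂ = ⟪a, c⟫_ℂ * ⟪d, b⟫_ℂ := by
  rw [tens, tens, TensorProduct.inner_tmul, inner_conjL]

theorem norm_tens (a b : L2 X) : ‖tens a b‖ = ‖a‖ * ‖b‖ := by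
  rw [tens, TensorProduct.norm_tmul, norm_conjL]

theorem inner_avg {E : Type*} [NormedAddCommGroup E] [InnerProductSpace ℂ E] (ν : Γ →₀ ℝ)
    (f : Γ → E) (a : E) : ⟪a, avg ν f⟫_ℂ = ∑ g ∈ ν.support, (ν g : ℂ) * ⟪a, f g⟫_ℂ := by
  simp only [avg, inner_sum, inner_smul_right]

/-- The averaged rank one operator, applied to a vector. -/
noncomputable def top (ν : Γ →₀ ℝ) (f : Γ → L2 X) (b : L2 X) : L2 X :=
  avg ν fun g => ⟪f g, b⟫_ℂ • f g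

theorem inner_top (ν : Γ →₀ ℝ) (f : Γ → L2 X) (a b : L2 X) :
    ⟪a, top ν f b⟫_ℂ = ⟪tens a b, avg ν fun g => tens (f g) (f g)⟫_ℂ := by
  rw [top, inner_avg, inner_avg]
  refine Finset.sum_congr rfl fun g _ => ?_
  rw [inner_smul_right, inner_tens, mul_comm ⟪f g, b⟫_ℂ]

theorem norm_top_sub_le (ν ν' : Γ →₀ ℝ) (f f' : Γ → L2 X) (b : L2 X) :
    ‖top ν f b - top ν' f' b‖ ≤
      ‖(avg ν fun g => tens (f g) (f g)) - avg ν' fun g => tens (f' g) (f' g)‖ * ‖b‖ := by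
  set a := top ν f b - top ν' f' b with ha
  set W := (avg ν fun g => tens (f g) (f g)) - avg ν' fun g => tens (f' g) (f' g) with hW
  have h1 : ⟪a, a⟫_ℂ = ⟪tens a b, W⟫_ℂ := by
    rw [hW, inner_sub_right (tens a b), ← inner_top, ← inner_top, ← inner_sub_right]
  have h2 : ‖a‖ * ‖a‖ ≤ ‖a‖ * (‖W‖ * ‖b‖) := by
    have h3 := norm_inner_le_norm (𝕜 := ℂ) (tens a b) W
    rw [← h1, norm_tens, inner_self_eq_norm_sq_to_K] at h3
    have h4 : ‖((‖a‖ : ℝ) : ℂ) ^ 2‖ = ‖a‖ * ‖a‖ := by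
      rw [norm_pow, Complex.norm_real, norm_norm, sq]
    calc ‖a‖ * ‖a‖ = ‖((‖a‖ : ℝ) : ℂ) ^ 2‖ := h4.symm
      _ ≤ ‖a‖ * ‖b‖ * ‖W‖ := h3
      _ = _ := by ring
  rcases (norm_nonneg a).eq_or_lt with h0 | h0
  · rw [← h0]; positivity
  · exact le_of_mul_le_mul_left h2 h0

theorem top_mem_compact (ν : Γ →₀ ℝ) (f : Γ → L2 X) (C : ℝ) :
    ∃ K : Set (L2 X), IsCompact K ∧ ∀ b, (∀ g, ‖⟪f g, b⟫_ℂ‖ ≤ C) → top ν f b ∈ K := by
  let Φ : (ν.support → ℂ) → L2 X := fun c => ∑ g : ν.support, (ν g : ℂ) • c g • f g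
  have hΦ : Continuous Φ := by
    refine continuous_finsetSum _ fun g _ => ?_
    fun_prop
  refine ⟨Φ '' Set.pi Set.univ fun _ => Metric.closedBall 0 C,
    (isCompact_univ_pi fun _ => isCompact_closedBall 0 C).image hΦ, fun b hb => ?_⟩
  refine ⟨fun g => ⟪f g, b⟫_ℂ, fun g _ => by simpa using hb g, ?_⟩
  rw [top, avg, ← Finset.sum_coe_sort]

end C

/-- MODULE C: a non weakly mixing family of unitary representations has a compact vector. -/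
theorem lemmaC {X Γ ι : Type} [Group Γ] [Fintype ι] (π : ι → Γ → (L2 X →L[ℂ] L2 X))
    (hmul : ∀ i g k, π i (g * k) = π i g * π i k) (hone : ∀ i, π i 1 = 1)
    (hiso : ∀ i g ξ η, ⟪π i g ξ, π i g η⟫_ℂ = ⟪ξ, η⟫_ℂ) (ξ η : ι → L2 X) {δ : ℝ} (hδ : 0 < δ)
    (h : ∀ μ : Γ →₀ ℝ, IsProb μ → δ ≤ ∑ g ∈ μ.support, ∑ k ∈ μ.support,
      μ g * μ k * ∑ i, ‖⟪ξ i, π i (g⁻¹ * k) (η i)⟫_ℂ‖ ^ 2) :
    ∃ (i : ι) (ζ : L2 X), ζ ≠ 0 ∧ TotallyBounded (Set.range fun g => π i g ζ) ∧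
      ∃ (ν : ℕ → Γ →₀ ℝ) (c : Γ → ℂ) (C : ℝ), (∀ n, IsProb (ν n)) ∧ (∀ g, ‖c g‖ ≤ C) ∧
        Tendsto (fun n => avg (ν n) fun g => c g • π i g (η i)) atTop (𝓝 ζ) := by
  classical
  have hnorm : ∀ i g a, ‖π i g a‖ = ‖a‖ := fun i g a => by
    rw [norm_eq_sqrt_re_inner (𝕜 := ℂ), hiso, ← norm_eq_sqrt_re_inner]
  let f : ι → Γ → L2 X := fun i g => π i g (η i)
  have hf : ∀ i g a, f i (g * a) = π i g (f i a) := fun i g a => by
    simp only [f, hmul, mul_apply_eq_comp]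
  let v : Γ → PiLp 2 (fun _ : ι => L2 X ⊗[ℂ] L2 X) :=
    fun g => WithLp.toLp 2 fun i => tens (f i g) (f i g)
  have hv : ∀ g a b, ⟪v (g * a), v (g * b)⟫_ℂ = ⟪v a, v b⟫_ℂ := fun g a b => by
    simp only [v, PiLp.inner_apply, inner_tens, hf, hiso]
  obtain ⟨ν, ε, hν, hε, h1, h2⟩ := exists_minimizing v hv
  have hcomp : ∀ (μ : Γ →₀ ℝ) (σ : Γ → Γ) (i : ι),
      (avg μ fun a => v (σ a)) i = avg μ fun a => tens (f i (σ a)) (f i (σ a)) := by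
    intro μ σ i
    exact map_avg (PiLp.proj (𝕜 := ℂ) 2 (fun _ : ι => L2 X ⊗[ℂ] L2 X) i) μ _
  have hle : ∀ (μ μ' : Γ →₀ ℝ) (σ : Γ → Γ) (i : ι) (b : L2 X),
      ‖top μ (fun a => f i (σ a)) b - top μ' (f i) b‖ ≤
        ‖(avg μ fun a => v (σ a)) - avg μ' v‖ * ‖b‖ := by
    intro μ μ' σ i b
    refine (norm_top_sub_le _ _ _ _ _).trans (mul_le_mul_of_nonneg_right ?_ (norm_nonneg _))
    rw [← hcomp μ σ i, ← hcomp μ' (fun a => a) i]
    exact PiLp.norm_apply_le ((avg μ fun a => v (σ a)) - avg μ' v) i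
  have hε0 : ∀ n, 0 ≤ ε n := fun n => (norm_nonneg _).trans (h2 n 1)
  have hcau : ∀ i, CauchySeq fun n => top (ν n) (f i) (ξ i) := by
    intro i
    rw [Metric.cauchySeq_iff]
    intro r hr
    have h3 : Tendsto (fun n => ε n * ‖ξ i‖) atTop (𝓝 0) := by simpa using hε.mul_const ‖ξ i‖
    obtain ⟨N, hN⟩ := eventually_atTop.1 (h3.eventually (gt_mem_nhds (half_pos hr)))
    refine ⟨N, fun m hm n hn => ?_⟩
    rw [dist_eq_norm]
    have h4 := (hle (ν m) (ν n) (fun a => a) i (ξ i)).trans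
      (mul_le_mul_of_nonneg_right (h1 m n) (norm_nonneg _))
    have h5 := hN m hm
    have h6 := hN n hn
    refine h4.trans_lt ?_
    rw [add_mul]
    linarith
  choose ζ hζ using fun i => cauchySeq_tendsto_of_complete (hcau i)
  let Ξ : PiLp 2 (fun _ : ι => L2 X ⊗[ℂ] L2 X) := WithLp.toLp 2 fun i => tens (ξ i) (ξ i)
  have hΞ : ∀ n, δ - ‖Ξ‖ * ε n ≤ (∑ i, ⟪ξ i, top (ν n) (f i) (ξ i)⟫_ℂ).re := by
    intro n
    have e1 : ∑ i, ⟪ξ i, top (ν n) (f i) (ξ i)⟫_ℂ = ⟪Ξ, avg (ν n) v⟫_ℂ := by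
      rw [PiLp.inner_apply]
      refine Finset.sum_congr rfl fun i _ => ?_
      rw [inner_top, hcomp (ν n) (fun a => a) i]
    have e2 : ∀ g, (⟪Ξ, avg (ν n) fun a => v (g⁻¹ * a)⟫_ℂ).re =
        ∑ k ∈ (ν n).support, ν n k * ∑ i, ‖⟪ξ i, π i (g⁻¹ * k) (η i)⟫_ℂ‖ ^ 2 := by
      intro g
      rw [inner_avg, Complex.re_sum]
      refine Finset.sum_congr rfl fun k _ => ?_
      rw [Complex.re_ofReal_mul, PiLp.inner_apply, Complex.re_sum]
      congr 1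
      refine Finset.sum_congr rfl fun i _ => ?_
      show (⟪tens (ξ i) (ξ i), tens (f i (g⁻¹ * k)) (f i (g⁻¹ * k))⟫_ℂ).re = _
      rw [inner_tens, ← inner_conj_symm (f i (g⁻¹ * k)), Complex.mul_conj, Complex.ofReal_re,
        Complex.normSq_eq_norm_sq]
    have e3 : ∀ g, (⟪Ξ, avg (ν n) fun a => v (g⁻¹ * a)⟫_ℂ).re ≤
        (⟪Ξ, avg (ν n) v⟫_ℂ).re + ‖Ξ‖ * ε n := by
      intro g
      have h3 := norm_inner_le_norm (𝕜 := ℂ) Ξ ((avg (ν n) fun a => v (g⁻¹ * a)) - avg (ν n) v)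
      have h4 := Complex.re_le_norm ⟪Ξ, (avg (ν n) fun a => v (g⁻¹ * a)) - avg (ν n) v⟫_ℂ
      have h5 := mul_le_mul_of_nonneg_left (h2 n g⁻¹) (norm_nonneg Ξ)
      rw [inner_sub_right, Complex.sub_re] at h4
      rw [inner_sub_right] at h3
      linarith
    have e4 := h (ν n) (hν n)
    have e5 : ∑ g ∈ (ν n).support, ∑ k ∈ (ν n).support,
        ν n g * ν n k * ∑ i, ‖⟪ξ i, π i (g⁻¹ * k) (η i)⟫_ℂ‖ ^ 2 ≤
        ∑ g ∈ (ν n).support, ν n g * ((⟪Ξ, avg (ν n) v⟫_ℂ).re + ‖Ξ‖ * ε n) := by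
      refine Finset.sum_le_sum fun g _ => ?_
      refine le_trans (le_of_eq ?_) (mul_le_mul_of_nonneg_left (e3 g) ((hν n).nonneg g))
      rw [e2, Finset.mul_sum]
      exact Finset.sum_congr rfl fun k _ => mul_assoc _ _ _
    rw [← Finset.sum_mul, (hν n).sum, one_mul] at e5
    rw [e1]
    linarith
  have hpos : δ ≤ (∑ i, ⟪ξ i, ζ i⟫_ℂ).re := by
    have t1 : Tendsto (fun n => δ - ‖Ξ‖ * ε n) atTop (𝓝 δ) := by
      simpa using (hε.const_mul ‖Ξ‖).const_sub δ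
    have t2 : Tendsto (fun n => (∑ i, ⟪ξ i, top (ν n) (f i) (ξ i)⟫_ℂ).re) atTop
        (𝓝 (∑ i, ⟪ξ i, ζ i⟫_ℂ).re) :=
      (Complex.continuous_re.tendsto _).comp
        (tendsto_finsetSum _ fun i _ => tendsto_const_nhds.inner (hζ i))
    exact le_of_tendsto_of_tendsto' t1 t2 hΞ
  obtain ⟨i, hi⟩ : ∃ i, ζ i ≠ 0 := by
    by_contra hc
    push Not at hc
    simp only [hc, inner_zero_right, Finset.sum_const_zero, Complex.zero_re] at hpos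
    linarith
  have hc : ∀ g k, ‖⟪f i g, π i k (ξ i)⟫_ℂ‖ ≤ ‖η i‖ * ‖ξ i‖ := fun g k => by
    refine (norm_inner_le_norm _ _).trans (le_of_eq ?_)
    simp only [f, hnorm]
  refine ⟨i, ζ i, hi, ?_, ν, fun g => ⟪f i g, ξ i⟫_ℂ, ‖η i‖ * ‖ξ i‖, hν, fun g => ?_, hζ i⟩
  · rw [Metric.totallyBounded_iff]
    intro r hr
    have h3 : Tendsto (fun n => ‖ζ i - top (ν n) (f i) (ξ i)‖ + ε n * ‖ξ i‖) atTop (𝓝 0) := by
      have t1 : Tendsto (fun n => ‖ζ i - top (ν n) (f i) (ξ i)‖) atTop (𝓝 0) := by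
        simpa using ((hζ i).const_sub (ζ i)).norm
      simpa using t1.add (hε.mul_const ‖ξ i‖)
    obtain ⟨n, hn⟩ := (h3.eventually (gt_mem_nhds (half_pos hr))).exists
    obtain ⟨K, hK, hK'⟩ := top_mem_compact (ν n) (f i) (‖η i‖ * ‖ξ i‖)
    obtain ⟨t, ht, hKt⟩ := Metric.totallyBounded_iff.1 hK.totallyBounded (r / 2) (half_pos hr)
    refine ⟨t, ht, ?_⟩
    rintro _ ⟨g, rfl⟩
    have h4 := hKt (hK' (π i g (ξ i)) fun a => hc a g)
    simp only [Set.mem_iUnion, Metric.mem_ball] at h4 ⊢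
    obtain ⟨y, hy, hy'⟩ := h4
    refine ⟨y, hy, ?_⟩
    have h5 : π i g (top (ν n) (f i) (ξ i)) = top (ν n) (fun a => f i (g * a)) (π i g (ξ i)) := by
      rw [top, map_avg, top]
      congr 1
      funext a
      rw [map_smul, hf, hiso]
    have h6 := (hle (ν n) (ν n) (fun a => g * a) i (π i g (ξ i))).trans
      (mul_le_mul_of_nonneg_right (h2 n g) (norm_nonneg _))
    rw [hnorm, ← h5] at h6
    have h7 : ‖π i g (ζ i) - π i g (top (ν n) (f i) (ξ i))‖ = ‖ζ i - top (ν n) (f i) (ξ i)‖ := by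
      rw [← map_sub, hnorm]
    have h8 := dist_triangle4 (π i g (ζ i)) (π i g (top (ν n) (f i) (ξ i)))
      (top (ν n) (f i) (π i g (ξ i))) y
    rw [dist_eq_norm (π i g (ζ i)) (π i g _), dist_eq_norm (π i g (top _ _ _))] at h8
    linarith
  · have := hc g 1
    rwa [hone, one_apply_eq_self] at this

end Pool.Agent.MP_82452b_an.H8
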